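import Pool.Agent.H242.GX.Stm5

/-!
# GX5-GRAPH: a plane curve as a graph near a point
-/

set_option autoImplicit false

open Set Filter Topology
open scoped ContDiff

namespace Pool.Agent.H795.GX

open Pool.Agent.H242.GX

/-- Inverse function theorem for a function of one variable with derivative `1` at `t₀`. -/
theorem inv1 (x : ℝ → ℝ) (hx : ContDiff ℝ ∞ x) (t₀ : ℝ) (h0 : x t₀ = 0) (h1 : deriv x t₀ = 1) :
    ∃ (T : ℝ → ℝ) (r : ℝ), 0 < r ∧ T 0 = t₀ ∧ ∀ u : ℝ, |u| < r → x (T u) = u ∧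
      0 < deriv x (T u) ∧ ContDiffAt ℝ ∞ T u ∧ HasDerivAt T (deriv x (T u))⁻¹ u := by
  have hd : ∀ t, HasDerivAt x (deriv x t) t := fun t =>
    (hx.differentiable (by simp) t).hasDerivAt
  have hfd : HasFDerivAt x ((ContinuousLinearEquiv.refl ℝ ℝ : ℝ ≃L[ℝ] ℝ) : ℝ →L[ℝ] ℝ) t₀ := by
    have h := (hd t₀).hasFDerivAt
    rw [h1] at h
    have e : ((ContinuousLinearEquiv.refl ℝ ℝ : ℝ ≃L[ℝ] ℝ) : ℝ →L[ℝ] ℝ) =
        ContinuousLinearMap.toSpanSingleton ℝ (1 : ℝ) := by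
      ext
      simp
    rw [e]
    exact h
  obtain ⟨f, hf⟩ : ∃ f, f = (hx.contDiffAt (x := t₀)).toOpenPartialHomeomorph x hfd (by simp) :=
    ⟨_, rfl⟩
  have hfx : (f : ℝ → ℝ) = x := by rw [hf]; rfl
  have hsrc : t₀ ∈ f.source := by
    rw [hf]
    exact ContDiffAt.mem_toOpenPartialHomeomorph_source _ hfd (by simp)
  have htgt : (0 : ℝ) ∈ f.target := by
    have h := f.map_source hsrc
    rwa [hfx, h0] at h
  have hT0 : f.symm 0 = t₀ := by
    have h := f.left_inv hsrc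
    rwa [hfx, h0] at h
  have hcont : ContinuousAt f.symm 0 := f.symm.continuousAt htgt
  have hcd : Continuous (deriv x) := hx.continuous_deriv (by simp)
  have hev : ∀ᶠ u in 𝓝 (0 : ℝ), u ∈ f.target ∧ 0 < deriv x (f.symm u) := by
    refine Filter.Eventually.and (f.open_target.mem_nhds htgt) ?_
    have h2 : ContinuousAt (fun u => deriv x (f.symm u)) 0 :=
      ContinuousAt.comp (g := deriv x) hcd.continuousAt hcont
    have h3 : 0 < deriv x (f.symm 0) := by
      rw [hT0, h1]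
      exact one_pos
    exact h2.tendsto.eventually_const_lt h3
  obtain ⟨r, hr, hall⟩ := Metric.eventually_nhds_iff.1 hev
  refine ⟨f.symm, r, hr, hT0, fun u hu => ?_⟩
  obtain ⟨h2, h3⟩ := hall (y := u) (by rw [Real.dist_eq, sub_zero]; exact hu)
  have h4 : HasDerivAt f (deriv x (f.symm u)) (f.symm u) := by
    rw [hfx]
    exact hd _
  refine ⟨?_, h3, ?_, f.hasDerivAt_symm h2 h3.ne' h4⟩
  · have h := f.right_inv h2
    rwa [hfx] at h
  · exact f.contDiffAt_symm_deriv h3.ne' h2 h4 (by rw [hfx]; exact hx.contDiffAt)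

/-- Cut-off. -/
theorem cutoff {E : Type} [NormedAddCommGroup E] [NormedSpace ℝ E] (χ f : E → ℝ)
    (hχ : ContDiff ℝ ∞ χ) (hf : ∀ x ∈ tsupport χ, ContDiffAt ℝ ∞ f x) :
    ContDiff ℝ ∞ (fun x => χ x * f x) := by
  rw [contDiff_iff_contDiffAt]
  intro x
  by_cases h : x ∈ tsupport χ
  · exact hχ.contDiffAt.mul (hf x h)
  · have h1 := notMem_tsupport_iff_eventuallyEq.1 h
    refine (contDiffAt_const (c := (0 : ℝ))).congr_of_eventuallyEq ?_
    filter_upwards [h1] with y hy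
    rw [hy]
    simp

/-- A continuous function without zeros on an interval has a constant sign. -/
theorem sign (cv : ℝ → ℝ) (hcv : Continuous cv) (t₀ t₁ : ℝ)
    (hne : ∀ t : ℝ, t₀ < t → t < t₁ → cv t ≠ 0) :
    ∃ ε : ℝ, ε * ε = 1 ∧ ∀ t : ℝ, t₀ < t → t < t₁ → 0 < ε * cv t := by
  by_cases h : ∃ a ∈ Ioo t₀ t₁, 0 < cv a
  · obtain ⟨a, ha, hpos⟩ := h
    refine ⟨1, by norm_num, fun t h1 h2 => ?_⟩
    rw [one_mul]
    by_contra hle
    push Not at hle
    obtain ⟨c, hc, hc0⟩ := isPreconnected_Ioo.intermediate_value (s := Ioo t₀ t₁)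
      (show t ∈ Ioo t₀ t₁ from ⟨h1, h2⟩) ha hcv.continuousOn (show (0 : ℝ) ∈ Icc (cv t) (cv a) from
        ⟨hle, hpos.le⟩)
    exact hne c hc.1 hc.2 hc0
  · push Not at h
    refine ⟨-1, by norm_num, fun t h1 h2 => ?_⟩
    have h3 := h t ⟨h1, h2⟩
    have h4 := lt_of_le_of_ne h3 (hne t h1 h2)
    linarith

theorem gx_GRAPH (hTDIR : S_TDIR) (hSIGK : S_SIGK) : S_GRAPH := by
  intro K U Y γ t₀ t₁ hKc hKx hKi hfol hproj hγ hrange hγ' ht01 hcv0 hcvne
  have hdγ : ∀ t, HasDerivAt γ (deriv γ t) t := fun t =>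
    (hγ.differentiable (by simp) t).hasDerivAt
  have hγ1 : ContDiff ℝ ∞ (deriv γ) := by
    have := (contDiff_infty_iff_deriv (f := γ)).1 hγ
    exact this.2
  have hγ2 : ContDiff ℝ ∞ (deriv (deriv γ)) := by
    have := (contDiff_infty_iff_deriv (f := deriv γ)).1 hγ1
    exact this.2
  have hddγ : ∀ t, HasDerivAt (deriv γ) (deriv (deriv γ) t) t := fun t =>
    (hγ1.differentiable (by simp) t).hasDerivAt
  obtain ⟨τ, hτ⟩ : ∃ τ, τ = deriv γ t₀ := ⟨_, rfl⟩
  have hτ0 : τ ≠ 0 := by rw [hτ]; exact hγ' t₀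
  obtain ⟨G1, hG1⟩ : ∃ G1 : ℝ → ℂ, G1 = fun t => deriv γ t / τ := ⟨_, rfl⟩
  obtain ⟨G2, hG2⟩ : ∃ G2 : ℝ → ℂ, G2 = fun t => deriv (deriv γ) t / τ := ⟨_, rfl⟩
  obtain ⟨x, hx⟩ : ∃ x : ℝ → ℝ, x = fun t => ((γ t - γ t₀) / τ).re := ⟨_, rfl⟩
  obtain ⟨y, hy⟩ : ∃ y : ℝ → ℝ, y = fun t => ((γ t - γ t₀) / τ).im := ⟨_, rfl⟩
  have hΓ : ∀ t, HasDerivAt (fun t => (γ t - γ t₀) / τ) (G1 t) t := by
    intro t
    rw [hG1]
    exact ((hdγ t).sub_const _).div_const τ
  have hG1' : ∀ t, HasDerivAt G1 (G2 t) t := by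
    intro t
    rw [hG1, hG2]
    exact (hddγ t).div_const τ
  have hx1 : ∀ t, HasDerivAt x (G1 t).re t := by
    intro t
    rw [hx]
    exact Complex.reCLM.hasFDerivAt.comp_hasDerivAt t (hΓ t)
  have hy1 : ∀ t, HasDerivAt y (G1 t).im t := by
    intro t
    rw [hy]
    exact Complex.imCLM.hasFDerivAt.comp_hasDerivAt t (hΓ t)
  have hx2 : ∀ t, HasDerivAt (fun t => (G1 t).re) (G2 t).re t := fun t =>
    Complex.reCLM.hasFDerivAt.comp_hasDerivAt t (hG1' t)
  have hy2 : ∀ t, HasDerivAt (fun t => (G1 t).im) (G2 t).im t := fun t =>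
    Complex.imCLM.hasFDerivAt.comp_hasDerivAt t (hG1' t)
  have hΓs : ContDiff ℝ ∞ (fun t => (γ t - γ t₀) / τ) := (hγ.sub contDiff_const).div_const τ
  have hxs : ContDiff ℝ ∞ x := by
    rw [hx]
    exact Complex.reCLM.contDiff.comp hΓs
  have hys : ContDiff ℝ ∞ y := by
    rw [hy]
    exact Complex.imCLM.contDiff.comp hΓs
  have hx0 : x t₀ = 0 := by rw [hx]; simp
  have hy0 : y t₀ = 0 := by rw [hy]; simp
  have hG10 : G1 t₀ = 1 := by
    rw [hG1]
    show deriv γ t₀ / τ = 1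
    rw [← hτ, div_self hτ0]
  have hγG : ∀ t, deriv γ t = G1 t * τ := by
    intro t
    rw [hG1]
    exact (div_mul_cancel₀ _ hτ0).symm
  have hγG2 : ∀ t, deriv (deriv γ) t = G2 t * τ := by
    intro t
    rw [hG2]
    exact (div_mul_cancel₀ _ hτ0).symm
  -- the curvature
  obtain ⟨cv, hcv⟩ : ∃ cv : ℝ → ℝ, cv = fun t =>
    (deriv γ t).re * (deriv (deriv γ) t).im - (deriv γ t).im * (deriv (deriv γ) t).re := ⟨_, rfl⟩
  have hcvc : Continuous cv := by
    rw [hcv]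
    exact ((Complex.continuous_re.comp hγ1.continuous).mul
      (Complex.continuous_im.comp hγ2.continuous)).sub
      ((Complex.continuous_im.comp hγ1.continuous).mul
      (Complex.continuous_re.comp hγ2.continuous))
  have hcvG : ∀ t, cv t = (τ.re ^ 2 + τ.im ^ 2) *
      ((G1 t).re * (G2 t).im - (G1 t).im * (G2 t).re) := by
    intro t
    rw [hcv]
    show (deriv γ t).re * (deriv (deriv γ) t).im - (deriv γ t).im * (deriv (deriv γ) t).re = _
    rw [hγG, hγG2]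
    simp only [Complex.mul_re, Complex.mul_im]
    ring
  have hτn : 0 < τ.re ^ 2 + τ.im ^ 2 := by
    have h1 : τ.re ≠ 0 ∨ τ.im ≠ 0 := by
      by_contra h
      push Not at h
      exact hτ0 (Complex.ext h.1 h.2)
    rcases h1 with h1 | h1
    · have := sq_nonneg τ.im
      have := pow_pos (abs_pos.2 h1) 2
      rw [sq_abs] at this
      linarith
    · have := sq_nonneg τ.re
      have := pow_pos (abs_pos.2 h1) 2
      rw [sq_abs] at this
      linarith
  obtain ⟨ε, hεε, hεcv⟩ := sign cv hcvc t₀ t₁ (by rw [hcv]; exact hcvne)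
  have hcv0' : cv t₀ = 0 := by rw [hcv]; exact hcv0
  -- the inverse function
  obtain ⟨T, r, hr, hT0, hT⟩ := inv1 x hxs t₀ hx0 (by rw [(hx1 t₀).deriv, hG10]; rfl)
  have hTx : ∀ u : ℝ, |u| < r → x (T u) = u := fun u hu => (hT u hu).1
  have hTp : ∀ u : ℝ, |u| < r → 0 < (G1 (T u)).re := fun u hu => by
    have := (hT u hu).2.1
    rwa [(hx1 _).deriv] at this
  have hTs : ∀ u : ℝ, |u| < r → ContDiffAt ℝ ∞ T u := fun u hu => (hT u hu).2.2.1
  have hTd : ∀ u : ℝ, |u| < r → HasDerivAt T ((G1 (T u)).re)⁻¹ u := fun u hu => by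
    have := (hT u hu).2.2.2
    rwa [(hx1 _).deriv] at this
  -- the graph
  obtain ⟨χ, hχ⟩ : ∃ χ : ContDiffBump (0 : ℝ), χ.rIn = r / 4 ∧ χ.rOut = r / 2 :=
    ⟨⟨r / 4, r / 2, by linarith, by linarith⟩, rfl, rfl⟩
  obtain ⟨g, hg⟩ : ∃ g : ℝ → ℝ, g = fun u => χ u * (ε * y (T u)) := ⟨_, rfl⟩
  have hgs : ContDiff ℝ ∞ g := by
    rw [hg]
    refine cutoff χ (fun u => ε * y (T u)) χ.contDiff fun u hu => ?_
    rw [χ.tsupport_eq, hχ.2, Metric.mem_closedBall, Real.dist_eq, sub_zero] at hu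
    exact contDiffAt_const.mul (hys.contDiffAt.comp u (hTs u (by linarith)))
  have hg1 : ∀ u : ℝ, |u| ≤ r / 4 → g u = ε * y (T u) := by
    intro u hu
    rw [hg]
    show χ u * (ε * y (T u)) = _
    rw [χ.one_of_mem_closedBall (by
      rw [hχ.1, Metric.mem_closedBall, Real.dist_eq, sub_zero]; exact hu), one_mul]
  have hnear : ∀ u : ℝ, |u| < r / 4 → ∀ᶠ v in 𝓝 u, |v| < r / 4 := fun u hu =>
    (continuous_abs.continuousAt (x := u)).tendsto.eventually_lt_const hu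
  have hgd : ∀ u : ℝ, |u| < r / 4 → HasDerivAt g (ε * ((G1 (T u)).im / (G1 (T u)).re)) u := by
    intro u hu
    have h1 : HasDerivAt (fun v => ε * y (T v)) (ε * ((G1 (T u)).im * ((G1 (T u)).re)⁻¹)) u :=
      ((hy1 (T u)).comp u (hTd u (by linarith))).const_mul ε
    refine (h1.congr_of_eventuallyEq ?_)
    filter_upwards [hnear u hu] with v hv
    exact hg1 v hv.le
  have hgd1 : ∀ u : ℝ, |u| < r / 4 → deriv g u = ε * ((G1 (T u)).im / (G1 (T u)).re) :=
    fun u hu => (hgd u hu).deriv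
  have hgdd : ∀ u : ℝ, |u| < r / 4 → deriv (deriv g) u =
      ε * cv (T u) / ((τ.re ^ 2 + τ.im ^ 2) * (G1 (T u)).re ^ 3) := by
    intro u hu
    have hp := hTp u (by linarith)
    have h1 : HasDerivAt (fun t => (G1 t).im / (G1 t).re)
        (((G2 (T u)).im * (G1 (T u)).re - (G1 (T u)).im * (G2 (T u)).re) / (G1 (T u)).re ^ 2)
        (T u) := (hy2 (T u)).div (hx2 (T u)) hp.ne'
    have h2 : HasDerivAt (fun v => ε * ((G1 (T v)).im / (G1 (T v)).re))
        (ε * ((((G2 (T u)).im * (G1 (T u)).re - (G1 (T u)).im * (G2 (T u)).re) /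
          (G1 (T u)).re ^ 2) * ((G1 (T u)).re)⁻¹)) u :=
      (h1.comp u (hTd u (by linarith))).const_mul ε
    have h3 : HasDerivAt (deriv g)
        (ε * ((((G2 (T u)).im * (G1 (T u)).re - (G1 (T u)).im * (G2 (T u)).re) /
          (G1 (T u)).re ^ 2) * ((G1 (T u)).re)⁻¹)) u := by
      refine h2.congr_of_eventuallyEq ?_
      filter_upwards [hnear u hu] with v hv
      exact hgd1 v hv
    rw [h3.deriv, hcvG]
    field_simp
  have hg0 : g 0 = 0 := by
    rw [hg1 0 (by rw [abs_zero]; linarith), hT0, hy0, mul_zero]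
  -- the points of the curve
  obtain ⟨P, hP⟩ : ∃ P : ℝ × ℝ → ℂ, P = fun q =>
    γ t₀ + (((q.1 : ℝ) : ℂ) + Complex.I * ((ε * (g q.1 + q.2) : ℝ) : ℂ)) * τ := ⟨_, rfl⟩
  have hPs : ContDiff ℝ ∞ P := by
    rw [hP]
    exact contDiff_const.add (((Complex.ofRealCLM.contDiff.comp contDiff_fst).add
      (contDiff_const.mul (Complex.ofRealCLM.contDiff.comp
        (contDiff_const.mul ((hgs.comp contDiff_fst).add contDiff_snd))))).mul contDiff_const)
  have hPγ : ∀ u : ℝ, |u| ≤ r / 4 → P (u, 0) = γ (T u) := by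
    intro u hu
    rw [hP]
    show γ t₀ + (((u : ℝ) : ℂ) + Complex.I * ((ε * (g u + 0) : ℝ) : ℂ)) * τ = γ (T u)
    have h1 : ε * (g u + 0) = y (T u) := by
      rw [hg1 u hu, add_zero, ← mul_assoc, hεε, one_mul]
    have h2 : (γ (T u) - γ t₀) / τ = ((x (T u) : ℝ) : ℂ) + Complex.I * ((y (T u) : ℝ) : ℂ) := by
      rw [hx, hy]
      apply Complex.ext <;> simp
    rw [h1]
    rw [hTx u (by linarith)] at h2
    rw [← h2, div_mul_cancel₀ _ hτ0]
    ring
  have hγU : ∀ t, γ t ∈ U ∧ Y (γ t) = 0 := by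
    intro t
    have h1 : γ t ∈ leaf K U Y 0 := by
      rw [hfol.leaf_zero, ← hrange]
      exact mem_range_self t
    exact ⟨h1.1, h1.2.2⟩
  have hYs : ∀ z ∈ U, ContDiffAt ℝ ∞ Y z := fun z hz =>
    hfol.smooth.contDiffAt (hfol.isOpen.mem_nhds hz)
  have hP0 : P (0, 0) = γ t₀ := by
    rw [hPγ 0 (by rw [abs_zero]; linarith), hT0]
  obtain ⟨ρ₀, hρ₀, hρU⟩ : ∃ ρ₀ : ℝ, 0 < ρ₀ ∧ Metric.ball ((0 : ℝ), (0 : ℝ)) ρ₀ ⊆ P ⁻¹' U := by
    have h1 : P ⁻¹' U ∈ 𝓝 ((0 : ℝ), (0 : ℝ)) := by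
      apply hPs.continuous.continuousAt
      rw [hP0]
      exact hfol.isOpen.mem_nhds (hγU t₀).1
    exact Metric.mem_nhds_iff.1 h1
  obtain ⟨ρ, hρ, hρr, hρU'⟩ : ∃ ρ : ℝ, 0 < ρ ∧ ρ ≤ r / 4 ∧
      Metric.closedBall ((0 : ℝ), (0 : ℝ)) ρ ⊆ P ⁻¹' U := by
    refine ⟨min (ρ₀ / 2) (r / 4), lt_min (by linarith) (by linarith), min_le_right _ _, ?_⟩
    refine (Metric.closedBall_subset_ball ?_).trans hρU
    exact lt_of_le_of_lt (min_le_left _ _) (by linarith)
  obtain ⟨χ₂, hχ₂⟩ : ∃ χ₂ : ContDiffBump ((0 : ℝ), (0 : ℝ)), χ₂.rIn = ρ / 2 ∧ χ₂.rOut = ρ :=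
    ⟨⟨ρ / 2, ρ, by linarith, by linarith⟩, rfl, rfl⟩
  obtain ⟨N, hN⟩ : ∃ N : ℝ × ℝ → ℝ, N = fun q => χ₂ q * Y (P q) := ⟨_, rfl⟩
  have hNs : ContDiff ℝ ∞ N := by
    rw [hN]
    refine cutoff χ₂ (fun q => Y (P q)) χ₂.contDiff fun q hq => ?_
    rw [χ₂.tsupport_eq, hχ₂.2] at hq
    exact (hYs _ (hρU' hq)).comp q hPs.contDiffAt
  have hN1 : ∀ q : ℝ × ℝ, q ∈ Metric.ball ((0 : ℝ), (0 : ℝ)) (ρ / 2) → N q = Y (P q) := by
    intro q hq
    rw [hN]
    show χ₂ q * Y (P q) = _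
    rw [χ₂.one_of_mem_closedBall (by rw [hχ₂.1]; exact Metric.ball_subset_closedBall hq), one_mul]
  have hball : ∀ u : ℝ, |u| < ρ / 2 → ((u, 0) : ℝ × ℝ) ∈ Metric.ball ((0 : ℝ), (0 : ℝ)) (ρ / 2) := by
    intro u hu
    rw [Metric.mem_ball, Prod.dist_eq, dist_self, Real.dist_eq, sub_zero]
    exact max_lt hu (by linarith)
  -- the choice of `δ`
  have hTc : ContinuousAt T 0 := (hTs 0 (by rw [abs_zero]; exact hr)).continuousAt
  obtain ⟨δ₁, hδ₁, hδT⟩ : ∃ δ₁ : ℝ, 0 < δ₁ ∧ ∀ u : ℝ, |u| < δ₁ → T u < t₁ := by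
    have h1 : ∀ᶠ u in 𝓝 (0 : ℝ), T u < t₁ := hTc.tendsto.eventually_lt_const (by rw [hT0]; exact ht01)
    obtain ⟨δ₁, h2, h3⟩ := Metric.eventually_nhds_iff.1 h1
    exact ⟨δ₁, h2, fun u hu => h3 (by rw [Real.dist_eq, sub_zero]; exact hu)⟩
  have hTmono : StrictMonoOn T (Ioo (-r) r) := by
    refine strictMonoOn_of_deriv_pos (convex_Ioo _ _) ?_ ?_
    · intro u hu
      exact (hTs u (abs_lt.2 hu)).continuousAt.continuousWithinAt
    · intro u hu
      rw [interior_Ioo] at hu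
      rw [(hTd u (abs_lt.2 hu)).deriv]
      exact inv_pos.2 (hTp u (abs_lt.2 hu))
  refine ⟨g, N, min (ρ / 2) δ₁, ?_⟩
  have hδρ : ∀ u : ℝ, |u| < min (ρ / 2) δ₁ → |u| < ρ / 2 := fun u hu =>
    lt_of_lt_of_le hu (min_le_left _ _)
  have hTlt : ∀ t : ℝ, 0 < t → t < min (ρ / 2) δ₁ → t₀ < T t ∧ T t < t₁ := by
    intro t h1 h2
    have h3 : t < ρ / 2 := lt_of_lt_of_le h2 (min_le_left _ _)
    have h4 : t < δ₁ := lt_of_lt_of_le h2 (min_le_right _ _)
    constructor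
    · rw [← hT0]
      exact hTmono ⟨by linarith, hr⟩ ⟨by linarith, by linarith⟩ h1
    · exact hδT t (by rw [abs_of_pos h1]; exact h4)
  refine ⟨lt_min (by linarith) hδ₁, hgs, hNs, ?_, ?_, ?_, ?_, ?_⟩
  · -- zero
    intro u
    rw [hN]
    show χ₂ (u, 0) * Y (P (u, 0)) = 0
    by_cases hu : |u| ≤ r / 4
    · rw [hPγ u hu, (hγU _).2, mul_zero]
    · push Not at hu
      rw [χ₂.zero_of_le_dist (by
        rw [hχ₂.2, Prod.dist_eq, Real.dist_eq, sub_zero]
        exact (hρr.trans hu.le).trans (le_max_left _ _)), zero_mul]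
  · -- reg
    intro u hu
    have hu1 := hδρ u hu
    have hur : |u| ≤ r / 4 := by linarith
    have hz := (hγU (T u)).1
    have hYd : HasFDerivAt Y (fderiv ℝ Y (γ (T u))) (γ (T u)) :=
      ((hYs _ hz).differentiableAt (by simp)).hasFDerivAt
    have h1 : HasDerivAt (fun η : ℝ => P (u, η)) (Complex.I * (ε : ℂ) * τ) 0 := by
      rw [hP]
      have h2 : HasDerivAt (fun η : ℝ => ((ε * (g u + η) : ℝ) : ℂ)) ((ε * 1 : ℝ) : ℂ) 0 :=
        (((hasDerivAt_id (0 : ℝ)).const_add (g u)).const_mul ε).ofReal_comp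
      have h3 := (((h2.const_mul Complex.I).const_add ((u : ℝ) : ℂ)).mul_const τ).const_add (γ t₀)
      rw [mul_one] at h3
      exact h3
    have h4 : HasDerivAt (fun η : ℝ => Y (P (u, η)))
        (fderiv ℝ Y (γ (T u)) (Complex.I * (ε : ℂ) * τ)) 0 := by
      have h5 : HasFDerivAt Y (fderiv ℝ Y (γ (T u))) (P (u, 0)) := by
        rw [hPγ u hur]
        exact hYd
      exact h5.comp_hasDerivAt 0 h1
    have h6 : HasDerivAt (fun η : ℝ => N (u, η))
        (fderiv ℝ Y (γ (T u)) (Complex.I * (ε : ℂ) * τ)) 0 := by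
      refine h4.congr_of_eventuallyEq ?_
      have h7 : ContinuousAt (fun η : ℝ => ((u, η) : ℝ × ℝ)) 0 := by fun_prop
      filter_upwards [h7 (Metric.isOpen_ball.mem_nhds (hball u hu1))] with η hη
      exact hN1 _ hη
    rw [h6.deriv]
    intro h8
    apply hfol.regular (γ (T u)) hz
    -- the derivative along the curve vanishes
    have h9 : fderiv ℝ Y (γ (T u)) (deriv γ (T u)) = 0 := by
      have h10 : HasDerivAt (fun t => Y (γ t)) (fderiv ℝ Y (γ (T u)) (deriv γ (T u))) (T u) :=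
        hYd.comp_hasDerivAt (T u) (hdγ (T u))
      have h11 : (fun t => Y (γ t)) = fun _ => (0 : ℝ) := funext fun t => (hγU t).2
      rw [h11] at h10
      exact h10.unique (hasDerivAt_const _ _)
    have hε0 : ε ≠ 0 := by
      intro h
      rw [h, mul_zero] at hεε
      exact zero_ne_one hεε
    have hre := (hTp u (by linarith)).ne'
    ext z
    show fderiv ℝ Y (γ (T u)) z = 0
    have h12 : z = ((z / τ).re / (G1 (T u)).re) • deriv γ (T u) +
        ((((z / τ).im - (z / τ).re / (G1 (T u)).re * (G1 (T u)).im) / ε) •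
          (Complex.I * (ε : ℂ) * τ)) := by
      rw [hγG]
      have h13 : z = (z / τ) * τ := (div_mul_cancel₀ _ hτ0).symm
      obtain ⟨w, hw⟩ : ∃ w, w = z / τ := ⟨_, rfl⟩
      rw [← hw] at h13 ⊢
      rw [h13]
      have h14 : w = ((w.re / (G1 (T u)).re : ℝ) : ℂ) * G1 (T u) +
          (((w.im - w.re / (G1 (T u)).re * (G1 (T u)).im) / ε : ℝ) : ℂ) * (Complex.I * (ε : ℂ)) := by
        apply Complex.ext
        · simp only [Complex.add_re, Complex.mul_re, Complex.ofReal_re, Complex.ofReal_im,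
            Complex.I_re, Complex.I_im, Complex.mul_im]
          field_simp
          ring
        · simp only [Complex.add_im, Complex.mul_re, Complex.ofReal_re, Complex.ofReal_im,
            Complex.I_re, Complex.I_im, Complex.mul_im]
          field_simp
          ring
      rw [Complex.real_smul, Complex.real_smul]
      linear_combination τ * h14
    rw [h12, map_add, map_smul, map_smul, h8, h9, smul_zero, smul_zero, add_zero]
  · -- w0
    rw [hgdd 0 (by rw [abs_zero]; linarith), hT0, hcv0', mul_zero, zero_div]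
  · -- wpos
    intro t h1 h2
    have h3 : t < ρ / 2 := lt_of_lt_of_le h2 (min_le_left _ _)
    rw [hgdd t (by rw [abs_of_pos h1]; linarith)]
    obtain ⟨h4, h5⟩ := hTlt t h1 h2
    have h6 := hTp t (by rw [abs_of_pos h1]; linarith)
    have h7 := hεcv (T t) h4 h5
    positivity
  · -- inv
    intro t h1 h2
    have h3 : t < ρ / 2 := lt_of_lt_of_le h2 (min_le_left _ _)
    have habs : |t| = t := abs_of_pos h1
    have hp := hTp t (by rw [habs]; linarith)
    obtain ⟨V, hV⟩ : ∃ V : ℂ, V = (1 + Complex.I * ((ε * deriv g t : ℝ) : ℂ)) * τ := ⟨_, rfl⟩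
    have hVγ : V = ((G1 (T t)).re)⁻¹ • deriv γ (T t) := by
      rw [hV, hgd1 t (by rw [habs]; linarith), hγG, Complex.real_smul, ← mul_assoc, ← mul_assoc,
        hεε, one_mul]
      congr 1
      apply Complex.ext
      · simp only [Complex.add_re, Complex.mul_re, Complex.ofReal_re, Complex.ofReal_im,
            Complex.I_re, Complex.I_im, Complex.one_re]
        field_simp
        ring
      · simp only [Complex.add_im, Complex.mul_re, Complex.ofReal_re, Complex.ofReal_im,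
            Complex.I_re, Complex.I_im, Complex.mul_im, Complex.one_im]
        field_simp
        ring
    have htd := hTDIR K γ hKc hKx hKi hγ hrange (T t) (hγ' _)
    have htdV : IsTangentDir K (γ (T t)) V := by
      refine ⟨?_, fun s => ?_⟩
      · rw [hVγ]
        exact smul_ne_zero (inv_ne_zero hp.ne') (hγ' _)
      · rw [hVγ, smul_smul]
        exact htd.2 _
    have hfr : γ (T t) ∈ frontier K := by
      rw [← hrange]
      exact mem_range_self _
    obtain ⟨k, r₁, hr₁, hk⟩ := hSIGK U Y (γ (T t)) V (hproj _ hfr V htdV)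
    -- the values of `N`
    have hFc : Continuous (fun s : ℝ => ((t + s, g t + deriv g t * s - g (t + s)) : ℝ × ℝ)) := by
      have := hgs.continuous
      fun_prop
    have hF0 : ((t + 0, g t + deriv g t * 0 - g (t + 0)) : ℝ × ℝ) = (t, 0) := by
      rw [add_zero, mul_zero, add_zero, sub_self]
    obtain ⟨r₂, hr₂, hr₂'⟩ : ∃ r₂ : ℝ, 0 < r₂ ∧ ∀ s : ℝ, |s| < r₂ →
        N (t + s, g t + deriv g t * s - g (t + s)) = Y (γ (T t) + s • V) := by
      have h4 : ∀ᶠ s in 𝓝 (0 : ℝ), ((t + s, g t + deriv g t * s - g (t + s)) : ℝ × ℝ) ∈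
          Metric.ball ((0 : ℝ), (0 : ℝ)) (ρ / 2) := by
        apply hFc.continuousAt
        refine Metric.isOpen_ball.mem_nhds ?_
        show ((t + 0, g t + deriv g t * 0 - g (t + 0)) : ℝ × ℝ) ∈ _
        rw [hF0]
        exact hball t (by rw [habs]; exact h3)
      obtain ⟨r₂, h5, h6⟩ := Metric.eventually_nhds_iff.1 h4
      refine ⟨r₂, h5, fun s hs => ?_⟩
      rw [hN1 _ (h6 (by rw [Real.dist_eq, sub_zero]; exact hs))]
      congr 1
      rw [← hPγ t (by rw [habs]; linarith), hP, hV, Complex.real_smul]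
      show γ t₀ + (((t + s : ℝ) : ℂ) +
          Complex.I * ((ε * (g (t + s) + (g t + deriv g t * s - g (t + s))) : ℝ) : ℂ)) * τ =
        γ t₀ + (((t : ℝ) : ℂ) + Complex.I * ((ε * (g t + 0) : ℝ) : ℂ)) * τ +
          (s : ℂ) * ((1 + Complex.I * ((ε * deriv g t : ℝ) : ℂ)) * τ)
      push_cast
      ring
    have hσ : ∀ᶠ s in 𝓝 (0 : ℝ), |s| < r₁ ∧ |s| < r₂ ∧ |-s / (1 + k * s)| < r₂ := by
      refine (Filter.Eventually.and ?_ (Filter.Eventually.and ?_ ?_))
      · exact (continuous_abs.continuousAt (x := (0 : ℝ))).tendsto.eventually_lt_const (by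
          rw [abs_zero]; exact hr₁)
      · exact (continuous_abs.continuousAt (x := (0 : ℝ))).tendsto.eventually_lt_const (by
          rw [abs_zero]; exact hr₂)
      · have h4 : ContinuousAt (fun s : ℝ => |-s / (1 + k * s)|) 0 := by
          refine (ContinuousAt.div (by fun_prop) (by fun_prop) ?_).abs
          rw [mul_zero, add_zero]
          exact one_ne_zero
        exact h4.tendsto.eventually_lt_const (by
          rw [neg_zero, zero_div, abs_zero]
          exact hr₂)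
    obtain ⟨r₃, hr₃, hall⟩ := Metric.eventually_nhds_iff.1 hσ
    refine ⟨k, r₃, hr₃, fun s hs => ?_⟩
    obtain ⟨h4, h5, h6⟩ := hall (y := s) (by rw [Real.dist_eq, sub_zero]; exact hs)
    obtain ⟨h7, h8⟩ := hk s h4
    refine ⟨h7, ?_⟩
    rw [hr₂' s h5, hr₂' _ h6]
    exact h8

end Pool.Agent.H795.GX
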